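import Mathlib

namespace Pool.Agent.Results.MP_f73150_nt.Cex

theorem result : ∃ (k m : ℕ) (A : Finset ℕ), 1 ≤ k ∧ A ⊆ Finset.Ioc m (m + k) ∧
    (∀ a ∈ A, ∀ b ∈ A, a ≠ b → Nat.gcd a b = 1) ∧
    (∀ n ∈ Finset.Ioc m (m + k), ∃ a ∈ A, 1 < Nat.gcd n a) ∧
    Nat.primeCounting k + 2 ≤ A.card :=
  ⟨9, 4, {5, 7, 8, 9, 11, 13}, by decide, by decide, by decide, by decide, by decide⟩

end Pool.Agent.Results.MP_f73150_nt.Cex
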